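import Pool.Agent.Helper95.HV.Stmts
import Pool.Agent.Helper84.LN.EID
import Pool.Agent.Helper64.HS.FFX
import Pool.Agent.Helper29.LN.PHB

/-!
# Row DIP: the energy of dipoles in different balls
-/

set_option autoImplicit false

namespace Pool.Agent.Helper40.HV

open MeasureTheory Filter Topology Pool.Agent.Helper95.PW Pool.Agent.Helper95.LN
open Pool.Agent.Helper95.HV
open Pool.Agent.Helper84.LN (eid_norm_le eid_nr0 eid_b2 eid_int4 eid_pd_sub eid_pd_mul eid_cd
  eid_cs eid_ibp eid_cut)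
open Pool.Agent.Helper64.HS (nr_tri nr_comm nr_nonneg nr_cont pd_comm pd_lin cd_lin lap_lin lap_pd)
open Pool.Agent.Helper29.LN (nr_line_hd pd_of)

/-- second derivatives outside -/
theorem dip_out (h1 : ST_PHA) (h2 : ST_PHB) {b : ℝ} (hb : 0 < b) (i j : Fin 3) {y : R3}
    (hy : b < nr y) :
    pd j (pd i (ph b)) y = 3 * y i * y j / nr y ^ 5 - (if i = j then 1 else 0) / nr y ^ 3 := by
  have hs := (h1 b hb).1
  have hy0 : 0 < nr y := hb.trans hy
  apply pd_of ((eid_cd i hs).differentiable (by simp) y)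
  have hY : HasDerivAt (fun t : ℝ => (y + t • (Pi.single j 1 : R3)) i)
      (if i = j then 1 else 0) 0 := by
    have h1 : (fun t : ℝ => (y + t • (Pi.single j 1 : R3)) i) =
        fun t => y i + t * (if i = j then 1 else 0) := by
      funext t
      simp [Pi.single_apply]
    rw [h1]
    simpa using ((hasDerivAt_id (0:ℝ)).mul_const (if i = j then (1:ℝ) else 0)).const_add (y i)
  have hN := (nr_line_hd y hy0 j).pow 3
  have hq := (hY.div hN (by simpa using hy0.ne')).neg
  have hc : Continuous fun t : ℝ => nr (y + t • (Pi.single j 1 : R3)) :=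
    nr_cont.comp (by fun_prop)
  have h2' : (fun t : ℝ => pd i (ph b) (y + t • (Pi.single j 1 : R3))) =ᶠ[𝓝 0]
      fun t : ℝ => -((y + t • (Pi.single j 1 : R3)) i / nr (y + t • (Pi.single j 1 : R3)) ^ 3) := by
    have : ∀ᶠ t : ℝ in 𝓝 0, b < nr (y + t • (Pi.single j 1 : R3)) := by
      refine (hc.tendsto 0).eventually_const_lt ?_
      simpa using hy
    filter_upwards [this] with t ht
    exact (h2 b hb).2.2.2 i _ ht.le
  refine (HasDerivAt.congr_of_eventuallyEq hq h2').congr_deriv ?_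
  simp only [zero_smul, add_zero, Pi.pow_apply]
  push_cast
  field_simp
  ring

theorem dip_co (i : Fin 3) (y : R3) : |y i| ≤ nr y := by
  refine Real.abs_le_sqrt ?_
  fin_cases i <;> simp <;> nlinarith [sq_nonneg (y 0), sq_nonneg (y 1), sq_nonneg (y 2)]

theorem dip_dec (h1 : ST_PHA) (h2 : ST_PHB) {b : ℝ} (hb : 0 < b) :
    ∃ D : ℝ, 0 < D ∧ ∀ (i j : Fin 3) (y : R3),
      |pd j (pd i (ph b)) y| ≤ D ∧ ‖y‖ ^ 2 * |pd j (pd i (ph b)) y| ≤ D := by
  have hs := (h1 b hb).1
  have hk : IsCompact {y : R3 | nr y ≤ b} :=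
    (isCompact_closedBall (0 : R3) b).of_isClosed_subset (isClosed_le nr_cont continuous_const)
      (fun y hy => by
        rw [mem_closedBall_zero_iff]
        exact (eid_norm_le y).trans hy)
  have hbd : ∀ i j : Fin 3, ∃ C : ℝ, ∀ y : R3, nr y ≤ b → |pd j (pd i (ph b)) y| ≤ C := by
    intro i j
    obtain ⟨C, hC⟩ := hk.exists_bound_of_continuousOn
      ((eid_cd j (eid_cd i hs)).continuous.continuousOn)
    exact ⟨C, fun y hy => hC y hy⟩
  choose C hC using hbd
  set S : ℝ := ∑ i, ∑ j, |C i j| with hS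
  have hS0 : 0 ≤ S := Finset.sum_nonneg fun i _ => Finset.sum_nonneg fun j _ => abs_nonneg _
  have hSle : ∀ i j, C i j ≤ S := by
    intro i j
    refine (le_abs_self _).trans ?_
    refine (Finset.single_le_sum (f := fun j => |C i j|) (fun _ _ => abs_nonneg _)
      (Finset.mem_univ j)).trans ?_
    exact Finset.single_le_sum (f := fun i => ∑ j, |C i j|)
      (fun _ _ => Finset.sum_nonneg fun _ _ => abs_nonneg _) (Finset.mem_univ i)
  refine ⟨S + b ^ 2 * S + 4 / b ^ 3 + 4 / b, by positivity, fun i j y => ?_⟩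
  by_cases hy : nr y ≤ b
  · have h3 : |pd j (pd i (ph b)) y| ≤ S := (hC i j y hy).trans (hSle i j)
    have h4 : ‖y‖ ^ 2 ≤ b ^ 2 := pow_le_pow_left₀ (norm_nonneg _) ((eid_norm_le y).trans hy) 2
    have h5 : 0 ≤ b ^ 2 * S := by positivity
    have h6 : (0:ℝ) < 4 / b ^ 3 := by positivity
    have h7 : (0:ℝ) < 4 / b := by positivity
    constructor
    · linarith
    · have := mul_le_mul h4 h3 (abs_nonneg _) (by positivity)
      linarith
  · rw [not_le] at hy
    have hp : 0 < nr y := hb.trans hy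
    have h3 : |pd j (pd i (ph b)) y| ≤ 4 / nr y ^ 3 := by
      rw [dip_out h1 h2 hb i j hy]
      refine (abs_sub _ _).trans ?_
      have e1 : |3 * y i * y j / nr y ^ 5| ≤ 3 / nr y ^ 3 := by
        rw [abs_div, abs_mul, abs_mul, abs_of_pos (by norm_num : (0:ℝ) < 3),
          abs_of_pos (by positivity : 0 < nr y ^ 5), div_le_div_iff₀ (by positivity)
          (by positivity)]
        have e2 : |y i| * |y j| ≤ nr y * nr y :=
          mul_le_mul (dip_co i y) (dip_co j y) (abs_nonneg _) hp.le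
        calc 3 * |y i| * |y j| * nr y ^ 3 = 3 * nr y ^ 3 * (|y i| * |y j|) := by ring
          _ ≤ 3 * nr y ^ 3 * (nr y * nr y) := mul_le_mul_of_nonneg_left e2 (by positivity)
          _ = 3 * nr y ^ 5 := by ring
      have e3 : |(if i = j then (1:ℝ) else 0) / nr y ^ 3| ≤ 1 / nr y ^ 3 := by
        rw [abs_div, abs_of_pos (by positivity : 0 < nr y ^ 3)]
        refine div_le_div_of_nonneg_right ?_ (by positivity)
        split_ifs <;> simp
      calc _ ≤ 3 / nr y ^ 3 + 1 / nr y ^ 3 := add_le_add e1 e3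
        _ = 4 / nr y ^ 3 := by ring
    have h5 : 0 ≤ b ^ 2 * S := by positivity
    have h6 : (0:ℝ) < 4 / b ^ 3 := by positivity
    have h7 : (0:ℝ) < 4 / b := by positivity
    constructor
    · have : 4 / nr y ^ 3 ≤ 4 / b ^ 3 :=
        div_le_div_of_nonneg_left (by norm_num) (by positivity)
          (pow_le_pow_left₀ hb.le hy.le 3)
      linarith
    · have e1 : ‖y‖ ^ 2 * |pd j (pd i (ph b)) y| ≤ nr y ^ 2 * (4 / nr y ^ 3) :=
        mul_le_mul (pow_le_pow_left₀ (norm_nonneg _) (eid_norm_le y) 2) h3 (abs_nonneg _)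
          (by positivity)
      have e2 : nr y ^ 2 * (4 / nr y ^ 3) = 4 / nr y := by field_simp
      have e3 : 4 / nr y ≤ 4 / b := div_le_div_of_nonneg_left (by norm_num) hb hy.le
      linarith

/-! ### Green's identity -/

theorem dip_lim {f : R3 → ℝ} {h : Fin 3 → R3 → ℝ} {A B C : ℝ} {χ : ℕ → R3 → ℝ}
    (hf : ContDiff ℝ (⊤ : ℕ∞) f)
    (hh : ∀ m, Continuous (h m)) (hA : ∀ w, |f w| ≤ A / (1 + ‖w‖) ^ 2)
    (hA' : ∀ m w, |pd m f w| ≤ A / (1 + ‖w‖) ^ 2) (hB : ∀ m w, |h m w| ≤ B / (1 + ‖w‖) ^ 2)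
    (hC : 0 ≤ C) (hχ : ∀ N, ContDiff ℝ (⊤ : ℕ∞) (χ N) ∧ HasCompactSupport (χ N) ∧
    (∀ w, |χ N w| ≤ 1) ∧
    (∀ i w, |pd i (χ N) w| ≤ C / (1 + ‖w‖)) ∧ (∀ i w, |pd i (χ N) w| ≤ C / ((N : ℝ) + 1)) ∧
    ∀ w, ‖w‖ ≤ (N : ℝ) + 1 → χ N w = 1) :
    Tendsto (fun N => ∫ w, ∑ m, pd m (fun w => χ N w * f w) w * h m w) atTop
      (𝓝 (∫ w, ∑ m, pd m f w * h m w)) := by
  have e1 : ∀ N m w, pd m (fun w => χ N w * f w) w = pd m (χ N) w * f w + χ N w * pd m f w :=
    fun N m w => eid_pd_mul m (hχ N).1 hf w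
  refine tendsto_integral_of_dominated_convergence
    (fun w => 3 * ((C + 1) * A * B) / (1 + ‖w‖) ^ 4) (fun N => ?_) (eid_int4 _) (fun N => ?_)
    (Eventually.of_forall fun w => ?_)
  · exact (continuous_finsetSum _ fun m _ =>
      (eid_cd m ((hχ N).1.mul hf)).continuous.mul (hh m)).aestronglyMeasurable
  · refine Eventually.of_forall fun w => ?_
    rw [Real.norm_eq_abs]
    have hw : 0 < 1 + ‖w‖ := by positivity
    have hw2 : 0 < (1 + ‖w‖) ^ 2 := by positivity
    have hi : ∀ m : Fin 3, |pd m (fun w => χ N w * f w) w * h m w| ≤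
        (C + 1) * A * B / (1 + ‖w‖) ^ 4 := by
      intro m
      rw [e1, abs_mul]
      have c5 : |pd m (χ N) w| ≤ C := by
        refine ((hχ N).2.2.2.2.1 m w).trans ?_
        refine div_le_self hC ?_
        have : (0:ℝ) ≤ N := Nat.cast_nonneg N
        linarith
      have k1 : |pd m (χ N) w * f w| ≤ C * (A / (1 + ‖w‖) ^ 2) := by
        rw [abs_mul]
        exact mul_le_mul c5 (hA w) (abs_nonneg _) hC
      have k2 : |χ N w * pd m f w| ≤ 1 * (A / (1 + ‖w‖) ^ 2) := by
        rw [abs_mul]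
        exact mul_le_mul ((hχ N).2.2.1 w) (hA' m w) (abs_nonneg _) zero_le_one
      have k3 : |pd m (χ N) w * f w + χ N w * pd m f w| ≤ (C + 1) * (A / (1 + ‖w‖) ^ 2) := by
        refine (abs_add_le _ _).trans ?_
        linarith
      have k4 : 0 ≤ (C + 1) * (A / (1 + ‖w‖) ^ 2) := (abs_nonneg _).trans k3
      calc _ ≤ (C + 1) * (A / (1 + ‖w‖) ^ 2) * (B / (1 + ‖w‖) ^ 2) :=
            mul_le_mul k3 (hB m w) (abs_nonneg _) k4
        _ = (C + 1) * A * B / (1 + ‖w‖) ^ 4 := by field_simp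
    refine (Finset.abs_sum_le_sum_abs _ _).trans ((Finset.sum_le_sum fun i _ => hi i).trans ?_)
    rw [Finset.sum_const, Finset.card_univ, Fintype.card_fin, nsmul_eq_mul]
    refine le_of_eq ?_
    push_cast
    ring
  · refine tendsto_finsetSum _ fun m _ => ?_
    have t1 : Tendsto (fun N => pd m (χ N) w) atTop (𝓝 0) := by
      have t0 : Tendsto (fun N : ℕ => C / ((N : ℝ) + 1)) atTop (𝓝 0) := by
        have := tendsto_one_div_add_atTop_nhds_zero_nat (𝕜 := ℝ).const_mul C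
        simpa [div_eq_mul_inv] using this
      exact squeeze_zero_norm (fun N => (hχ N).2.2.2.2.1 m w) t0
    have t2 : Tendsto (fun N => χ N w) atTop (𝓝 1) := by
      refine tendsto_const_nhds.congr' ?_
      obtain ⟨N0, hN0⟩ := exists_nat_ge ‖w‖
      filter_upwards [eventually_ge_atTop N0] with N hNN
      refine ((hχ N).2.2.2.2.2 w ?_).symm
      have : (N0 : ℝ) ≤ N := by exact_mod_cast hNN
      linarith
    have t3 := ((t1.mul_const (f w)).add (t2.mul_const (pd m f w))).mul_const (h m w)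
    rw [zero_mul, zero_add, one_mul] at t3
    simp only [e1]
    exact t3

theorem dip_int {f h : R3 → ℝ} {A B : ℝ} (hf : Continuous f) (hh : Continuous h)
    (hA : ∀ w, |f w| ≤ A / (1 + ‖w‖) ^ 2) (hB : ∀ w, |h w| ≤ B / (1 + ‖w‖) ^ 2) :
    Integrable fun w => f w * h w := by
  refine (eid_int4 (A * B)).mono' (hf.mul hh).aestronglyMeasurable
    (Eventually.of_forall fun w => ?_)
  have hw : 0 < 1 + ‖w‖ := by positivity
  rw [Real.norm_eq_abs, abs_mul]
  have k4 : 0 ≤ A / (1 + ‖w‖) ^ 2 := (abs_nonneg _).trans (hA w)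
  calc _ ≤ A / (1 + ‖w‖) ^ 2 * (B / (1 + ‖w‖) ^ 2) :=
        mul_le_mul (hA w) (hB w) (abs_nonneg _) k4
    _ = A * B / (1 + ‖w‖) ^ 4 := by field_simp

theorem dip_green {f g : R3 → ℝ} {e : Fin 3 → R3 → ℝ} {A B B' : ℝ} (hf : ContDiff ℝ (⊤ : ℕ∞) f)
    (hg : ContDiff ℝ (⊤ : ℕ∞) g) (he : ∀ j, ContDiff ℝ (⊤ : ℕ∞) (e j))
    (hA : ∀ w, |f w| ≤ A / (1 + ‖w‖) ^ 2) (hA' : ∀ m w, |pd m f w| ≤ A / (1 + ‖w‖) ^ 2)
    (hB : ∀ m w, |pd m g w| ≤ B / (1 + ‖w‖) ^ 2) (hB' : ∀ m w, |e m w| ≤ B' / (1 + ‖w‖) ^ 2)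
    (hl : ∀ w, lap g w = -∑ j, pd j (e j) w) :
    ∫ w, ∑ m, pd m f w * pd m g w = -∫ w, ∑ j, pd j f w * e j w := by
  obtain ⟨χ, C, hC0, hχ⟩ := eid_cut
  have l1 := dip_lim hf (fun m => (eid_cd m hg).continuous) hA hA' hB hC0 hχ
  have l2 := (dip_lim hf (fun m => (he m).continuous) hA hA' hB' hC0 hχ).neg
  refine tendsto_nhds_unique (l1.congr fun N => ?_) l2
  obtain ⟨c1, c2, -, -, -, -⟩ := hχ N
  have Fs : ContDiff ℝ (⊤ : ℕ∞) fun w => χ N w * f w := c1.mul hf
  have Fc : HasCompactSupport fun w => χ N w * f w := c2.mul_right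
  have j1 : ∀ m, Integrable fun w => pd m (fun w => χ N w * f w) w * pd m g w := fun m =>
    ((eid_cd m Fs).continuous.mul (eid_cd m hg).continuous).integrable_of_hasCompactSupport
      (eid_cs m Fc).mul_right
  have j2 : ∀ m, Integrable fun w => (χ N w * f w) * pd m (pd m g) w := fun m =>
    (Fs.continuous.mul (eid_cd m (eid_cd m hg)).continuous).integrable_of_hasCompactSupport
      Fc.mul_right
  have j3 : ∀ m, Integrable fun w => pd m (fun w => χ N w * f w) w * e m w := fun m =>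
    ((eid_cd m Fs).continuous.mul (he m).continuous).integrable_of_hasCompactSupport
      (eid_cs m Fc).mul_right
  have j4 : ∀ m, Integrable fun w => (χ N w * f w) * pd m (e m) w := fun m =>
    (Fs.continuous.mul (eid_cd m (he m)).continuous).integrable_of_hasCompactSupport
      Fc.mul_right
  rw [integral_finsetSum _ fun m _ => j1 m, integral_finsetSum _ fun m _ => j3 m,
    Finset.sum_congr rfl fun m _ => eid_ibp m Fs Fc (eid_cd m hg),
    Finset.sum_congr rfl fun m _ => eid_ibp m Fs Fc (he m), Finset.sum_neg_distrib,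
    Finset.sum_neg_distrib, ← integral_finsetSum _ fun m _ => j2 m,
    ← integral_finsetSum _ fun m _ => j4 m, ← integral_neg, neg_neg]
  congr 1
  funext w
  rw [← Finset.mul_sum, ← Finset.mul_sum]
  have h := hl w
  unfold lap at h
  rw [h]
  ring

/-! ### one dipole -/

/-- potential of a dipole -/
noncomputable def Pv (b : ℝ) (v x : R3) (w : R3) : ℝ := ∑ i, v i * pd i (ph b) (w - x)

/-- its source -/
noncomputable def Ev (b : ℝ) (v x : R3) (j : Fin 3) (w : R3) : ℝ := v j * et b (w - x)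

theorem Pv_cd (h1 : ST_PHA) {b : ℝ} (hb : 0 < b) (v x : R3) :
    ContDiff ℝ (⊤ : ℕ∞) (Pv b v x) := by
  unfold Pv
  exact ContDiff.sum fun i _ => contDiff_const.mul
    ((eid_cd i (h1 b hb).1).comp (contDiff_id.sub contDiff_const))

theorem Ev_cd (h3 : ST_PHC) {b : ℝ} (hb : 0 < b) (v x : R3) (j : Fin 3) :
    ContDiff ℝ (⊤ : ℕ∞) (Ev b v x j) := by
  unfold Ev
  exact contDiff_const.mul ((h3.2.2.2 b hb).1.comp (contDiff_id.sub contDiff_const))

theorem pd_sum {F : Fin 3 → R3 → ℝ} (hF : ∀ i, ContDiff ℝ (⊤ : ℕ∞) (F i)) (v x : R3) (m : Fin 3) :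
    pd m (fun w => ∑ i, v i * F i (w - x)) = fun w => ∑ i, v i * pd m (F i) (w - x) := by
  funext w
  have hd : ∀ i, DifferentiableAt ℝ (fun w => F i (w - x)) w := fun i =>
    (((hF i).differentiable (by simp)).comp (differentiable_id.sub_const _)) w
  show fderiv ℝ (fun w => ∑ i, v i * F i (w - x)) w (Pi.single m 1) = _
  rw [fderiv_fun_sum (fun i _ => (hd i).const_mul (v i)), sum_apply]
  refine Finset.sum_congr rfl fun i _ => ?_
  rw [fderiv_const_mul (hd i), fderiv_comp_sub]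
  rfl

theorem Pv_pd (h1 : ST_PHA) {b : ℝ} (hb : 0 < b) (v x : R3) (m : Fin 3) :
    pd m (Pv b v x) = fun w => ∑ i, v i * pd m (pd i (ph b)) (w - x) :=
  pd_sum (fun i => eid_cd i (h1 b hb).1) v x m

theorem Ev_pd (h3 : ST_PHC) {b : ℝ} (hb : 0 < b) (v x : R3) (j m : Fin 3) (w : R3) :
    pd m (Ev b v x j) w = v j * pd m (et b) (w - x) := by
  have hd : DifferentiableAt ℝ (fun w => et b (w - x)) w :=
    (((h3.2.2.2 b hb).1.differentiable (by simp)).comp (differentiable_id.sub_const _)) w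
  show fderiv ℝ (fun w => v j * et b (w - x)) w (Pi.single m 1) = _
  rw [fderiv_const_mul hd, fderiv_comp_sub]
  rfl

theorem Pv_lap (h1 : ST_PHA) (h2 : ST_PHB) (h3 : ST_PHC) {b : ℝ} (hb : 0 < b) (v x w : R3) :
    lap (Pv b v x) w = -∑ j, pd j (Ev b v x j) w := by
  have hs := (h1 b hb).1
  have e1 : ∀ m, pd m (pd m (Pv b v x)) w =
      ∑ i, v i * pd m (pd m (pd i (ph b))) (w - x) := by
    intro m
    rw [Pv_pd h1 hb]
    exact congrFun (pd_sum (fun i => eid_cd m (eid_cd i hs)) v x m) w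
  have e2 : ∀ i, ∑ m, pd m (pd m (pd i (ph b))) (w - x) = -pd i (et b) (w - x) := by
    intro i
    have e3 := lap_pd hs i (w - x)
    have e4 : lap (ph b) = fun y => -et b y := funext fun y => (h2 b hb).1 y
    rw [e4] at e3
    have e5 : pd i (fun y => -et b y) (w - x) = -pd i (et b) (w - x) := by
      show fderiv ℝ (fun y => -et b y) (w - x) (Pi.single i 1) = _
      rw [fderiv_fun_neg]
      rfl
    rw [e5] at e3
    exact e3
  unfold lap
  rw [Finset.sum_congr rfl fun m _ => e1 m, Finset.sum_comm, ← Finset.sum_neg_distrib]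
  refine Finset.sum_congr rfl fun i _ => ?_
  rw [← Finset.mul_sum, e2, Ev_pd h3 hb]
  ring

theorem dip_shift {D t : ℝ} {x w : R3} (hD : 0 < D) (h0 : |t| ≤ D) (h1 : ‖w - x‖ ^ 2 * |t| ≤ D) :
    |t| ≤ 4 * D * (1 + ‖x‖) ^ 2 / (1 + ‖w‖) ^ 2 := by
  have h2 : |t / D| ≤ 1 := by
    rw [abs_div, abs_of_pos hD, div_le_one hD]
    exact h0
  have h3 : ‖w - x‖ ^ 2 * |t / D| ≤ 1 := by
    rw [abs_div, abs_of_pos hD, ← mul_div_assoc, div_le_one hD]
    exact h1
  have h4 := eid_b2 1 (t / D) w x h2 h3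
  rw [abs_div, abs_of_pos hD, div_le_iff₀ hD] at h4
  refine h4.trans (le_of_eq ?_)
  ring

theorem Pv_dec (h1 : ST_PHA) (h2 : ST_PHB) {b : ℝ} (hb : 0 < b) (v x : R3) :
    ∃ A : ℝ, (∀ w, |Pv b v x w| ≤ A / (1 + ‖w‖) ^ 2) ∧
      ∀ m w, |pd m (Pv b v x) w| ≤ A / (1 + ‖w‖) ^ 2 := by
  obtain ⟨D, hD, hdec⟩ := dip_dec h1 h2 hb
  set D' : ℝ := D + 4 / b ^ 2 + 1 with hD'
  have hb2 : 0 < 4 / b ^ 2 := by positivity
  have hD'0 : 0 < D' := by positivity
  have a1 : ∀ i w, |pd i (ph b) (w - x)| ≤ 4 * D' * (1 + ‖x‖) ^ 2 / (1 + ‖w‖) ^ 2 := by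
    intro i w
    refine dip_shift hD'0 (((h2 b hb).2.1 i _).trans (by linarith)) ?_
    by_cases h : nr (w - x) = 0
    · rw [eid_nr0 h, norm_zero]
      simp
      exact hD'0.le
    · have hp : 0 < nr (w - x) := lt_of_le_of_ne (Real.sqrt_nonneg _) (Ne.symm h)
      calc ‖w - x‖ ^ 2 * |pd i (ph b) (w - x)| ≤ nr (w - x) ^ 2 * (1 / nr (w - x) ^ 2) :=
            mul_le_mul (pow_le_pow_left₀ (norm_nonneg _) (eid_norm_le _) 2) ((h2 b hb).2.2.1 i _ h)
              (abs_nonneg _) (by positivity)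
        _ = 1 := by field_simp
        _ ≤ D' := by linarith
  have a2 : ∀ i m w, |pd m (pd i (ph b)) (w - x)| ≤ 4 * D' * (1 + ‖x‖) ^ 2 / (1 + ‖w‖) ^ 2 := by
    intro i m w
    refine dip_shift hD'0 ((hdec i m _).1.trans (by linarith)) ((hdec i m _).2.trans (by linarith))
  have key : ∀ (F : Fin 3 → ℝ) (w : R3),
      (∀ i, |F i| ≤ 4 * D' * (1 + ‖x‖) ^ 2 / (1 + ‖w‖) ^ 2) →
      |∑ i, v i * F i| ≤ (∑ i, |v i|) * (4 * D' * (1 + ‖x‖) ^ 2) / (1 + ‖w‖) ^ 2 := by
    intro F w hF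
    refine (Finset.abs_sum_le_sum_abs _ _).trans ?_
    rw [mul_div_assoc, Finset.sum_mul]
    refine Finset.sum_le_sum fun i _ => ?_
    rw [abs_mul]
    exact mul_le_mul_of_nonneg_left (hF i) (abs_nonneg _)
  refine ⟨(∑ i, |v i|) * (4 * D' * (1 + ‖x‖) ^ 2), fun w => key _ w fun i => a1 i w, fun m w => ?_⟩
  rw [Pv_pd h1 hb]
  exact key _ w fun i => a2 i m w

theorem Ev_dec (h3 : ST_PHC) {b : ℝ} (hb : 0 < b) (v x : R3) :
    ∃ A : ℝ, ∀ m w, |Ev b v x m w| ≤ A / (1 + ‖w‖) ^ 2 := by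
  obtain ⟨-, -, -, het⟩ := h3
  obtain ⟨ets, et0, etz, -, -, -⟩ := het b hb
  have hc : Continuous (et b) := ets.continuous
  have hcs : HasCompactSupport (et b) := by
    refine HasCompactSupport.intro (isCompact_closedBall 0 b) fun w hw => ?_
    rw [mem_closedBall_zero_iff, not_le] at hw
    exact etz _ (hw.le.trans (eid_norm_le _))
  obtain ⟨C, hC⟩ := hcs.exists_bound_of_continuous hc
  set D : ℝ := |C| * (1 + b ^ 2) + 1 with hD
  have hD0 : 0 < D := by positivity
  have a1 : ∀ w, |et b (w - x)| ≤ 4 * D * (1 + ‖x‖) ^ 2 / (1 + ‖w‖) ^ 2 := by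
    intro w
    have hC' : |et b (w - x)| ≤ |C| := (hC _).trans (le_abs_self _)
    have hb2 : 0 ≤ |C| * b ^ 2 := by positivity
    have hD2 : D = |C| + |C| * b ^ 2 + 1 := by rw [hD]; ring
    refine dip_shift hD0 (by linarith) ?_
    by_cases h : nr (w - x) ≤ b
    · have := mul_le_mul (pow_le_pow_left₀ (norm_nonneg _) ((eid_norm_le (w - x)).trans h) 2)
        hC' (abs_nonneg _) (by positivity)
      have hC0 : 0 ≤ |C| := abs_nonneg _
      linarith
    · rw [etz _ (le_of_not_ge h)]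
      simp
      exact hD0.le
  refine ⟨(∑ i, |v i|) * (4 * D * (1 + ‖x‖) ^ 2), fun m w => ?_⟩
  unfold Ev
  rw [abs_mul, mul_div_assoc]
  exact mul_le_mul (Finset.single_le_sum (f := fun i => |v i|) (fun _ _ => abs_nonneg _)
    (Finset.mem_univ m)) (a1 w) (abs_nonneg _) (Finset.sum_nonneg fun _ _ => abs_nonneg _)

/-- interaction of two dipoles -/
noncomputable def Iv (b : ℝ) (v x u y : R3) : ℝ :=
  ∫ w, ∑ m, pd m (Pv b v x) w * pd m (Pv b u y) w

/-- interaction of two sources -/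
noncomputable def EE (b : ℝ) (v x u y : R3) : ℝ :=
  ∫ w, ∑ m, Ev b v x m w * Ev b u y m w

theorem Iv_eq (h1 : ST_PHA) (h2 : ST_PHB) (h3 : ST_PHC) {b : ℝ} (hb : 0 < b) (v x u y : R3) :
    Iv b v x u y = -∫ w, ∑ j, pd j (Pv b v x) w * Ev b u y j w := by
  obtain ⟨A, hA, hA'⟩ := Pv_dec h1 h2 hb v x
  obtain ⟨B, -, hB⟩ := Pv_dec h1 h2 hb u y
  obtain ⟨B', hB'⟩ := Ev_dec h3 hb u y
  exact dip_green (Pv_cd h1 hb v x) (Pv_cd h1 hb u y) (fun j => Ev_cd h3 hb u y j) hA hA' hB hB'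
    (Pv_lap h1 h2 h3 hb u y)

theorem Iv_comm (b : ℝ) (v x u y : R3) : Iv b v x u y = Iv b u y v x := by
  unfold Iv
  congr 1
  funext w
  exact Finset.sum_congr rfl fun m _ => mul_comm _ _

/-- the square is an integral of products -/
theorem dip_q (h1 : ST_PHA) (h2 : ST_PHB) (h3 : ST_PHC) {b : ℝ} (hb : 0 < b) (v x u y : R3) :
    Integrable (fun w => ∑ m, (pd m (Pv b v x) w + Ev b v x m w) *
      (pd m (Pv b u y) w + Ev b u y m w)) ∧
    ∫ w, ∑ m, (pd m (Pv b v x) w + Ev b v x m w) * (pd m (Pv b u y) w + Ev b u y m w) =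
      EE b v x u y - Iv b v x u y := by
  obtain ⟨A, -, hA⟩ := Pv_dec h1 h2 hb v x
  obtain ⟨B, -, hB⟩ := Pv_dec h1 h2 hb u y
  obtain ⟨A', hA'⟩ := Ev_dec h3 hb v x
  obtain ⟨B', hB'⟩ := Ev_dec h3 hb u y
  have cA := fun m => (eid_cd m (Pv_cd h1 hb v x)).continuous
  have cB := fun m => (eid_cd m (Pv_cd h1 hb u y)).continuous
  have cA' := fun m => (Ev_cd h3 hb v x m).continuous
  have cB' := fun m => (Ev_cd h3 hb u y m).continuous
  have i1 : Integrable (fun w => ∑ m, pd m (Pv b v x) w * pd m (Pv b u y) w) :=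
    integrable_finsetSum _ fun m _ => dip_int (cA m) (cB m) (hA m) (hB m)
  have i2 : Integrable (fun w => ∑ m, pd m (Pv b v x) w * Ev b u y m w) :=
    integrable_finsetSum _ fun m _ => dip_int (cA m) (cB' m) (hA m) (hB' m)
  have i3 : Integrable (fun w => ∑ m, pd m (Pv b u y) w * Ev b v x m w) :=
    integrable_finsetSum _ fun m _ => dip_int (cB m) (cA' m) (hB m) (hA' m)
  have i4 : Integrable (fun w => ∑ m, Ev b v x m w * Ev b u y m w) :=
    integrable_finsetSum _ fun m _ => dip_int (cA' m) (cB' m) (hA' m) (hB' m)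
  have e : (fun w => ∑ m, (pd m (Pv b v x) w + Ev b v x m w) *
      (pd m (Pv b u y) w + Ev b u y m w)) = fun w =>
      (((∑ m, pd m (Pv b v x) w * pd m (Pv b u y) w) + ∑ m, pd m (Pv b v x) w * Ev b u y m w) +
        ∑ m, pd m (Pv b u y) w * Ev b v x m w) + ∑ m, Ev b v x m w * Ev b u y m w := by
    funext w
    rw [← Finset.sum_add_distrib, ← Finset.sum_add_distrib, ← Finset.sum_add_distrib]
    exact Finset.sum_congr rfl fun m _ => by ring
  have i12 := i1.add i2
  have i123 := i12.add i3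
  rw [e]
  refine ⟨i123.add i4, ?_⟩
  have k1 := integral_add i123 i4
  have k2 := integral_add i12 i3
  have k3 := integral_add i1 i2
  simp only [Pi.add_apply] at k1 k2 k3
  rw [k1, k2, k3]
  have k4 := Iv_eq h1 h2 h3 hb v x u y
  have k5 := Iv_eq h1 h2 h3 hb u y v x
  have k6 := Iv_comm b v x u y
  unfold EE
  unfold Iv at k4 k5 k6 ⊢
  linarith

/-- Young's inequality -/
theorem dip_young (h1 : ST_PHA) (h2 : ST_PHB) (h3 : ST_PHC) {b : ℝ} (hb : 0 < b) {n : ℕ}
    (a x : Fin n → R3) :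
    ∑ k, ∑ l, Iv b (a k) (x k) (a l) (x l) ≤ ∑ k, ∑ l, EE b (a k) (x k) (a l) (x l) := by
  have h0 : 0 ≤ ∫ w, ∑ m, (∑ k, (pd m (Pv b (a k) (x k)) w + Ev b (a k) (x k) m w)) ^ 2 :=
    integral_nonneg fun w => Finset.sum_nonneg fun m _ => sq_nonneg _
  have e : ∫ w, ∑ m, (∑ k, (pd m (Pv b (a k) (x k)) w + Ev b (a k) (x k) m w)) ^ 2 =
      ∑ k, ∑ l, (EE b (a k) (x k) (a l) (x l) - Iv b (a k) (x k) (a l) (x l)) := by
    have e1 : ∀ w, ∑ m, (∑ k, (pd m (Pv b (a k) (x k)) w + Ev b (a k) (x k) m w)) ^ 2 =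
        ∑ k, ∑ l, ∑ m, (pd m (Pv b (a k) (x k)) w + Ev b (a k) (x k) m w) *
          (pd m (Pv b (a l) (x l)) w + Ev b (a l) (x l) m w) := by
      intro w
      have e2 : ∀ m, (∑ k, (pd m (Pv b (a k) (x k)) w + Ev b (a k) (x k) m w)) ^ 2 =
          ∑ k, ∑ l, (pd m (Pv b (a k) (x k)) w + Ev b (a k) (x k) m w) *
            (pd m (Pv b (a l) (x l)) w + Ev b (a l) (x l) m w) := by
        intro m
        rw [pow_two, Finset.sum_mul_sum]
      rw [Finset.sum_congr rfl fun m _ => e2 m, Finset.sum_comm]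
      refine Finset.sum_congr rfl fun k _ => ?_
      rw [Finset.sum_comm]
    simp_rw [e1]
    rw [integral_finsetSum _ fun k _ => integrable_finsetSum _ fun l _ =>
      (dip_q h1 h2 h3 hb (a k) (x k) (a l) (x l)).1]
    refine Finset.sum_congr rfl fun k _ => ?_
    rw [integral_finsetSum _ fun l _ => (dip_q h1 h2 h3 hb (a k) (x k) (a l) (x l)).1]
    exact Finset.sum_congr rfl fun l _ => (dip_q h1 h2 h3 hb (a k) (x k) (a l) (x l)).2
  rw [e] at h0
  simp only [Finset.sum_sub_distrib] at h0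
  linarith

/-! ### pairs -/

theorem pd_zero_near {F : R3 → ℝ} {U : Set R3} (hU : IsOpen U) (h : ∀ y ∈ U, F y = 0) (i : Fin 3) :
    ∀ y ∈ U, pd i F y = 0 := by
  intro y hy
  have h1 : F =ᶠ[𝓝 y] fun _ => 0 := by
    filter_upwards [hU.mem_nhds hy] with z hz using h z hz
  unfold pd
  rw [h1.fderiv_eq]
  simp

theorem lap_hess (h1 : ST_PHA) (h2 : ST_PHB) (h3 : ST_PHC) {b : ℝ} (hb : 0 < b) (i j : Fin 3)
    {y : R3} (hy : b < nr y) : lap (pd j (pd i (ph b))) y = 0 := by
  have hs := (h1 b hb).1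
  have hU : IsOpen {y : R3 | b < nr y} := isOpen_lt continuous_const nr_cont
  have e1 : ∀ y ∈ {y : R3 | b < nr y}, lap (ph b) y = 0 := by
    intro y hy
    rw [(h2 b hb).1 y, (h3.2.2.2 b hb).2.2.1 y (le_of_lt hy), neg_zero]
  have e2 := pd_zero_near hU (pd_zero_near hU e1 i) j y hy
  rw [lap_pd (eid_cd i hs) j y]
  have e3 : lap (pd i (ph b)) = pd i (lap (ph b)) := funext fun z => lap_pd hs i z
  rw [e3]
  exact e2

theorem nr_neg' (a c : R3) : nr (a - c) = nr (c - a) := nr_comm a c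

theorem Tq_comm (x y v u : R3) : Tq (x - y) v u = Tq (y - x) u v := by
  unfold Tq
  rw [nr_comm x y]
  simp only [Fin.sum_univ_three, Pi.sub_apply]
  ring

theorem dip_pair (h0 : ST_MVP) (h1 : ST_PHA) (h2 : ST_PHB) (h3 : ST_PHC) {b : ℝ} (hb : 0 < b)
    (v x u y : R3) (hxy : 2 * b < nr (x - y)) : Iv b v x u y = -(kap * Tq (x - y) v u) := by
  have hs := (h1 b hb).1
  have hH : ∀ i j, ContDiff ℝ (⊤ : ℕ∞) (pd j (pd i (ph b))) := fun i j => eid_cd j (eid_cd i hs)
  -- the harmonic function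
  set h : R3 → ℝ := fun w => ∑ q : Fin 3 × Fin 3,
    (u q.2 * v q.1) * pd q.2 (pd q.1 (ph b)) (w - x) with hh
  have hhs : ContDiff ℝ (⊤ : ℕ∞) h := ContDiff.sum fun q _ => contDiff_const.mul
    ((hH q.1 q.2).comp (contDiff_id.sub contDiff_const))
  have hlap : ∀ w, nr (w - y) ≤ b → lap h w = 0 := by
    intro w hw
    have hwx : b < nr (w - x) := by
      have := nr_tri x w y
      rw [nr_comm x w] at this
      linarith
    have hpd : ∀ (F : Fin 3 × Fin 3 → R3 → ℝ), (∀ q, ContDiff ℝ (⊤ : ℕ∞) (F q)) → ∀ m,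
        pd m (fun w => ∑ q, (u q.2 * v q.1) * F q (w - x)) =
          fun w => ∑ q, (u q.2 * v q.1) * pd m (F q) (w - x) := by
      intro F hF m
      funext w
      have hd : ∀ q, DifferentiableAt ℝ (fun w => F q (w - x)) w := fun q =>
        (((hF q).differentiable (by simp)).comp (differentiable_id.sub_const _)) w
      show fderiv ℝ (fun w => ∑ q, (u q.2 * v q.1) * F q (w - x)) w (Pi.single m 1) = _
      rw [fderiv_fun_sum (fun q _ => (hd q).const_mul _), sum_apply]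
      refine Finset.sum_congr rfl fun q _ => ?_
      rw [fderiv_const_mul (hd q), fderiv_comp_sub]
      rfl
    have e1 : ∀ m, pd m (pd m h) w =
        ∑ q : Fin 3 × Fin 3, (u q.2 * v q.1) * pd m (pd m (pd q.2 (pd q.1 (ph b)))) (w - x) := by
      intro m
      rw [hh, hpd (fun q => pd q.2 (pd q.1 (ph b))) (fun q => hH q.1 q.2) m]
      exact congrFun (hpd (fun q => pd m (pd q.2 (pd q.1 (ph b))))
        (fun q => eid_cd m (hH q.1 q.2)) m) w
    unfold lap
    rw [Finset.sum_congr rfl fun m _ => e1 m, Finset.sum_comm]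
    refine Finset.sum_eq_zero fun q _ => ?_
    rw [← Finset.mul_sum]
    have := lap_hess h1 h2 h3 hb q.1 q.2 hwx
    unfold lap at this
    rw [this, mul_zero]
  have hm := (h0 h y b hhs hb).1 hlap
  rw [Iv_eq h1 h2 h3 hb]
  have e2 : ∀ w, ∑ j, pd j (Pv b v x) w * Ev b u y j w = h w * et b (w - y) := by
    intro w
    rw [hh]
    simp only [Pv_pd h1 hb, Ev, Fintype.sum_prod_type, Fin.sum_univ_three]
    ring
  simp_rw [e2]
  rw [hm]
  have hyx : b < nr (y - x) := by
    rw [nr_comm]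
    linarith
  have e3 : h y = Tq (x - y) v u := by
    have hp : 0 < nr (y - x) := hb.trans hyx
    rw [Tq_comm, hh]
    simp only [dip_out h1 h2 hb _ _ hyx, Fintype.sum_prod_type, Fin.sum_univ_three]
    unfold Tq
    simp only [Fin.sum_univ_three]
    simp
    field_simp
    ring
  rw [e3]

theorem et_int (h3 : ST_PHC) {b : ℝ} (hb : 0 < b) (y : R3) :
    Integrable (fun w => et b (w - y)) ∧ ∫ w, et b (w - y) = kap := by
  obtain ⟨-, -, -, het⟩ := h3
  obtain ⟨ets, et0, etz, -, -, ek⟩ := het b hb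
  have hcs : HasCompactSupport (et b) := by
    refine HasCompactSupport.intro (isCompact_closedBall 0 b) fun w hw => ?_
    rw [mem_closedBall_zero_iff, not_le] at hw
    exact etz _ (hw.le.trans (eid_norm_le _))
  have hi : Integrable (et b) := ets.continuous.integrable_of_hasCompactSupport hcs
  refine ⟨hi.comp_sub_right y, ?_⟩
  rw [integral_sub_right_eq_self (fun w => et b w) y]
  exact ek

theorem dip_near (h1 : ST_PHA) (h2 : ST_PHB) (h3 : ST_PHC) {b : ℝ} (hb : 0 < b) :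
    ∃ C : ℝ, 0 < C ∧ ∀ (v x u y : R3) (K : ℝ), (∀ m, |v m| ≤ K) → (∀ m, |u m| ≤ K) →
      |Iv b v x u y| ≤ C * K ^ 2 ∧ |EE b v x u y| ≤ C * K ^ 2 := by
  obtain ⟨D, hD, hdec⟩ := dip_dec h1 h2 hb
  have h3' := h3
  obtain ⟨-, hkap, ⟨C, hC, hCe⟩, het⟩ := h3
  obtain ⟨-, et0, -, -, -, -⟩ := het b hb
  have hb3 : 0 < C / b ^ 3 := by positivity
  refine ⟨9 * D * kap + 3 * (C / b ^ 3) * kap, by positivity, fun v x u y K hv hu => ?_⟩
  have hK : 0 ≤ K := (abs_nonneg _).trans (hv 0)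
  obtain ⟨ei, ek⟩ := et_int h3' hb y
  have c1 : |Iv b v x u y| ≤ 9 * D * kap * K ^ 2 := by
    rw [Iv_eq h1 h2 h3' hb, abs_neg]
    have hb1 : ∀ w, ‖∑ j, pd j (Pv b v x) w * Ev b u y j w‖ ≤ 9 * D * K ^ 2 * et b (w - y) := by
      intro w
      rw [Real.norm_eq_abs]
      have t1 : ∀ j, |pd j (Pv b v x) w * Ev b u y j w| ≤ 3 * D * K ^ 2 * et b (w - y) := by
        intro j
        rw [Pv_pd h1 hb, abs_mul]
        have t2 : |∑ i, v i * pd j (pd i (ph b)) (w - x)| ≤ 3 * (K * D) := by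
          refine (Finset.abs_sum_le_sum_abs _ _).trans ?_
          refine (Finset.sum_le_sum fun i _ => (?_ : _ ≤ K * D)).trans (le_of_eq ?_)
          · rw [abs_mul]
            exact mul_le_mul (hv i) (hdec i j _).1 (abs_nonneg _) hK
          · rw [Finset.sum_const, Finset.card_univ, Fintype.card_fin, nsmul_eq_mul]
            push_cast
            ring
        have t3 : |Ev b u y j w| ≤ K * et b (w - y) := by
          unfold Ev
          rw [abs_mul, abs_of_nonneg (et0 _)]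
          exact mul_le_mul_of_nonneg_right (hu j) (et0 _)
        calc _ ≤ 3 * (K * D) * (K * et b (w - y)) :=
              mul_le_mul t2 t3 (abs_nonneg _) (by positivity)
          _ = _ := by ring
      refine (Finset.abs_sum_le_sum_abs _ _).trans ((Finset.sum_le_sum fun i _ => t1 i).trans ?_)
      rw [Finset.sum_const, Finset.card_univ, Fintype.card_fin, nsmul_eq_mul]
      refine le_of_eq ?_
      push_cast
      ring
    have := norm_integral_le_of_norm_le (ei.const_mul (9 * D * K ^ 2))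
      (Eventually.of_forall hb1)
    rw [integral_const_mul, ek, Real.norm_eq_abs] at this
    refine this.trans (le_of_eq ?_)
    ring
  have c2 : |EE b v x u y| ≤ 3 * (C / b ^ 3) * kap * K ^ 2 := by
    have hb1 : ∀ w, ‖∑ m, Ev b v x m w * Ev b u y m w‖ ≤
        3 * (C / b ^ 3) * K ^ 2 * et b (w - y) := by
      intro w
      rw [Real.norm_eq_abs]
      have t1 : ∀ j, |Ev b v x j w * Ev b u y j w| ≤ (C / b ^ 3) * K ^ 2 * et b (w - y) := by
        intro j
        rw [abs_mul]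
        have t2 : |Ev b v x j w| ≤ K * (C / b ^ 3) := by
          unfold Ev
          rw [abs_mul, abs_of_nonneg (et0 _)]
          exact mul_le_mul (hv j) (hCe b _ hb) (et0 _) hK
        have t3 : |Ev b u y j w| ≤ K * et b (w - y) := by
          unfold Ev
          rw [abs_mul, abs_of_nonneg (et0 _)]
          exact mul_le_mul_of_nonneg_right (hu j) (et0 _)
        calc _ ≤ K * (C / b ^ 3) * (K * et b (w - y)) :=
              mul_le_mul t2 t3 (abs_nonneg _) (by positivity)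
          _ = _ := by ring
      refine (Finset.abs_sum_le_sum_abs _ _).trans ((Finset.sum_le_sum fun i _ => t1 i).trans ?_)
      rw [Finset.sum_const, Finset.card_univ, Fintype.card_fin, nsmul_eq_mul]
      refine le_of_eq ?_
      push_cast
      ring
    have := norm_integral_le_of_norm_le (ei.const_mul (3 * (C / b ^ 3) * K ^ 2))
      (Eventually.of_forall hb1)
    rw [integral_const_mul, ek, Real.norm_eq_abs] at this
    unfold EE
    refine this.trans (le_of_eq ?_)
    ring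
  have hk2 : 0 ≤ K ^ 2 := sq_nonneg _
  have p1 : 0 ≤ 9 * D * kap * K ^ 2 := by positivity
  have p2 : 0 ≤ 3 * (C / b ^ 3) * kap * K ^ 2 := by positivity
  constructor
  · calc _ ≤ _ := c1
      _ ≤ _ := by linarith
  · calc _ ≤ _ := c2
      _ ≤ _ := by linarith

theorem EE_far (h3 : ST_PHC) {b : ℝ} (hb : 0 < b) (v x u y : R3) (hxy : 2 * b < nr (x - y)) :
    EE b v x u y = 0 := by
  obtain ⟨-, -, etz, -, -, -⟩ := h3.2.2.2 b hb
  unfold EE
  rw [← integral_zero R3 ℝ (μ := volume)]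
  congr 1
  funext w
  refine Finset.sum_eq_zero fun m _ => ?_
  unfold Ev
  by_cases h : b ≤ nr (w - x)
  · rw [etz _ h]
    ring
  · have h2 : b ≤ nr (w - y) := by
      have := nr_tri x w y
      rw [nr_comm x w] at this
      linarith
    rw [etz _ h2]
    ring

theorem Iv_zero1 (h1 : ST_PHA) {b : ℝ} (hb : 0 < b) (x u y : R3) : Iv b 0 x u y = 0 := by
  unfold Iv
  rw [← integral_zero R3 ℝ (μ := volume)]
  congr 1
  funext w
  simp [Pv_pd h1 hb]

theorem EE_zero1 (b : ℝ) (x u y : R3) : EE b 0 x u y = 0 := by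
  unfold EE
  rw [← integral_zero R3 ℝ (μ := volume)]
  congr 1
  funext w
  simp [Ev]

theorem EE_comm (b : ℝ) (v x u y : R3) : EE b v x u y = EE b u y v x := by
  unfold EE
  congr 1
  funext w
  exact Finset.sum_congr rfl fun m _ => mul_comm _ _

/-! ### the row -/

theorem DIP (h0 : ST_MVP) (h1 : ST_PHA) (h2 : ST_PHB) (h3 : ST_PHC) : ST_DIP := by
  intro d hd _
  have hb : 0 < d / 8 := by positivity
  obtain ⟨C, hC, hnear⟩ := dip_near h1 h2 h3 hb
  have hkap : 0 < kap := h3.2.1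
  refine ⟨C / kap, by positivity, fun n M X x a K hX ha hz => ?_⟩
  classical
  set b := d / 8 with hbd
  have hK2 : 0 ≤ K ^ 2 := sq_nonneg _
  -- near pairs
  set N : Fin n → Fin n → ℝ := fun k l =>
    ∑ i, (if nr (x k - X i) < 3 / 2 * d then (1:ℝ) else 0) *
      (if nr (x l - X i) < 3 / 2 * d then 1 else 0) with hN
  have hN0 : ∀ k l, 0 ≤ N k l := fun k l => Finset.sum_nonneg fun i _ => by
    split_ifs <;> norm_num
  have hN1 : ∀ k l i, nr (x k - X i) ≤ d / 2 → nr (x l - X i) ≤ d / 2 → 1 ≤ N k l := by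
    intro k l i hk hl
    refine le_trans (le_of_eq ?_) (Finset.single_le_sum (f := fun i =>
      (if nr (x k - X i) < 3 / 2 * d then (1:ℝ) else 0) *
      (if nr (x l - X i) < 3 / 2 * d then 1 else 0)) (fun i _ => by
        split_ifs <;> norm_num) (Finset.mem_univ i))
    rw [if_pos (by linarith), if_pos (by linarith), one_mul]
  have hNs : ∑ k, ∑ l, N k l = ∑ i, cnt X (3 / 2 * d) x i ^ 2 := by
    have e1 : ∀ i, cnt X (3 / 2 * d) x i ^ 2 = ∑ k, ∑ l,
        (if nr (x k - X i) < 3 / 2 * d then (1:ℝ) else 0) *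
        (if nr (x l - X i) < 3 / 2 * d then 1 else 0) := by
      intro i
      unfold cnt
      rw [pow_two, Finset.sum_mul_sum]
    rw [Finset.sum_congr rfl fun i _ => e1 i]
    calc ∑ k, ∑ l, N k l = ∑ k, ∑ i, ∑ l, (if nr (x k - X i) < 3 / 2 * d then (1:ℝ) else 0) *
          (if nr (x l - X i) < 3 / 2 * d then 1 else 0) :=
          Finset.sum_congr rfl fun k _ => Finset.sum_comm
      _ = _ := Finset.sum_comm
  -- trichotomy of the pairs
  have tri : ∀ k l, a k = 0 ∨ a l = 0 ∨ 1 ≤ N k l ∨ d < nr (x k - x l) := by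
    intro k l
    by_contra hcon
    push Not at hcon
    obtain ⟨hk, hl, hN', hkl⟩ := hcon
    have hk' : ∃ i, nr (x k - X i) ≤ d / 2 := by
      by_contra h
      push Not at h
      exact hk (hz k h)
    have hl' : ∃ i, nr (x l - X i) ≤ d / 2 := by
      by_contra h
      push Not at h
      exact hl (hz l h)
    obtain ⟨i, hi⟩ := hk'
    obtain ⟨j, hj⟩ := hl'
    by_cases hij : i = j
    · subst hij
      exact absurd (hN1 k l i hi hj) (not_le.2 hN')
    · have s1 := hX i j hij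
      have s2 := nr_tri (X i) (x k) (X j)
      have s3 := nr_tri (x k) (x l) (X j)
      rw [nr_comm (X i) (x k)] at s2
      linarith
  set T : Fin n → Fin n → ℝ := fun k l =>
    if d < nr (x k - x l) then Tq (x k - x l) (a k) (a l) else 0 with hT
  have hI : ∀ k l, -(kap * T k l) ≤ Iv b (a k) (x k) (a l) (x l) + C * K ^ 2 * N k l := by
    intro k l
    have hCN : 0 ≤ C * K ^ 2 * N k l := mul_nonneg (mul_nonneg hC.le hK2) (hN0 k l)
    by_cases hkl : d < nr (x k - x l)
    · rw [dip_pair h0 h1 h2 h3 hb (a k) (x k) (a l) (x l) (by linarith), hT]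
      simp only [if_pos hkl]
      linarith
    · have e0 : T k l = 0 := by
        rw [hT]
        simp only [if_neg hkl]
      rw [e0, mul_zero, neg_zero]
      rcases tri k l with h | h | h | h
      · rw [h, Iv_zero1 h1 hb]
        linarith
      · rw [h, Iv_comm, Iv_zero1 h1 hb]
        linarith
      · have := (abs_le.1 (hnear (a k) (x k) (a l) (x l) K (ha k) (ha l)).1).1
        have h5 : C * K ^ 2 * 1 ≤ C * K ^ 2 * N k l :=
          mul_le_mul_of_nonneg_left h (mul_nonneg hC.le hK2)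
        linarith
      · exact absurd h hkl
  have hE : ∀ k l, EE b (a k) (x k) (a l) (x l) ≤ C * K ^ 2 * N k l := by
    intro k l
    have hCN : 0 ≤ C * K ^ 2 * N k l := mul_nonneg (mul_nonneg hC.le hK2) (hN0 k l)
    rcases tri k l with h | h | h | h
    · rw [h, EE_zero1]
      exact hCN
    · rw [h, EE_comm, EE_zero1]
      exact hCN
    · have := (abs_le.1 (hnear (a k) (x k) (a l) (x l) K (ha k) (ha l)).2).2
      have h5 : C * K ^ 2 * 1 ≤ C * K ^ 2 * N k l :=
        mul_le_mul_of_nonneg_left h (mul_nonneg hC.le hK2)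
      linarith
    · rw [EE_far h3 hb _ _ _ _ (by linarith)]
      exact hCN
  have hY := dip_young h1 h2 h3 hb a x
  have s1 : -(kap * ∑ k, ∑ l, T k l) ≤ (∑ k, ∑ l, Iv b (a k) (x k) (a l) (x l)) +
      C * K ^ 2 * ∑ k, ∑ l, N k l := by
    have := Finset.sum_le_sum fun k (_ : k ∈ Finset.univ) =>
      Finset.sum_le_sum fun l (_ : l ∈ Finset.univ) => hI k l
    simp only [Finset.sum_add_distrib, Finset.sum_neg_distrib, ← Finset.mul_sum] at this
    exact this
  have s2 : ∑ k, ∑ l, EE b (a k) (x k) (a l) (x l) ≤ C * K ^ 2 * ∑ k, ∑ l, N k l := by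
    have := Finset.sum_le_sum fun k (_ : k ∈ Finset.univ) =>
      Finset.sum_le_sum fun l (_ : l ∈ Finset.univ) => hE k l
    simp only [← Finset.mul_sum] at this
    exact this
  -- symmetry
  have hTs : ∀ k l, T k l = T l k := by
    intro k l
    rw [hT]
    dsimp only
    rw [nr_comm (x k) (x l), Tq_comm (x k) (x l)]
  have hTd : ∀ k, T k k = 0 := by
    intro k
    rw [hT]
    dsimp only
    rw [if_neg]
    rw [sub_self, not_lt]
    have : nr (0 : R3) = 0 := by simp [nr]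
    rw [this]
    exact hd.le
  have s3 : ∑ k, ∑ l, T k l = 2 * ∑ k, ∑ l, if k < l ∧ d < nr (x k - x l) then
      Tq (x k - x l) (a k) (a l) else 0 := by
    have e1 : ∀ k l, T k l = (if k < l then T k l else 0) + (if l < k then T k l else 0) := by
      intro k l
      rcases lt_trichotomy k l with h | h | h
      · rw [if_pos h, if_neg (not_lt.2 h.le), add_zero]
      · subst h
        simp [hTd]
      · rw [if_neg (not_lt.2 h.le), if_pos h, zero_add]
    have e2 : ∑ k, ∑ l, (if l < k then T k l else 0) = ∑ k, ∑ l, (if k < l then T k l else 0) := by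
      rw [Finset.sum_comm]
      refine Finset.sum_congr rfl fun k _ => Finset.sum_congr rfl fun l _ => ?_
      rw [hTs]
    have e3 : ∀ k l, (if k < l then T k l else 0) = if k < l ∧ d < nr (x k - x l) then
        Tq (x k - x l) (a k) (a l) else 0 := by
      intro k l
      rw [hT]
      dsimp only
      by_cases h : k < l <;> by_cases h' : d < nr (x k - x l) <;> simp [h, h']
    calc ∑ k, ∑ l, T k l = ∑ k, ∑ l, ((if k < l then T k l else 0) +
          (if l < k then T k l else 0)) :=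
          Finset.sum_congr rfl fun k _ => Finset.sum_congr rfl fun l _ => e1 k l
      _ = 2 * ∑ k, ∑ l, (if k < l then T k l else 0) := by
          simp only [Finset.sum_add_distrib]
          rw [e2]
          ring
      _ = _ := by
          congr 1
          exact Finset.sum_congr rfl fun k _ => Finset.sum_congr rfl fun l _ => e3 k l
  rw [hNs] at s1 s2
  rw [s3] at s1
  rw [div_mul_eq_mul_div, div_mul_eq_mul_div, le_div_iff₀ hkap]
  linarith

end Pool.Agent.Helper40.HV
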